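import Pool.Agent.MP_ee8c61_ag.M3Z.Zero
import Pool.Agent.MP_ee8c61_ag.M3.Frame
import Pool.Agent.MP_ee8c61_ag.M3K.RKa
import Pool.Agent.MP_ee8c61_ag.M3K.RKb
import Pool.Agent.MP_ee8c61_ag.M3K.RNg0
import Pool.Agent.MP_ee8c61_ag.M3K.RTc
import Pool.Agent.MP_ee8c61_ag.M3K.RTr
import Pool.Agent.MP_ee8c61_ag.M3K.RUp
import Pool.Agent.MP_ee8c61_ag.M3E.RUnr
import Pool.Agent.MP_ee8c61_ag.M3L.R1
import Pool.Agent.MP_ee8c61_ag.M3RESID.CC2
import Pool.Agent.MP_ee8c61_ag.M3RESID.Cht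

/-!
Complete core curves of exponent zero in the datum of a divisor.
-/

namespace Pool.Agent.MP_ee8c61_ag.M3Z

open M3 M3E M3RESID M3K Finset

noncomputable section

section Gen

variable {L k : Type} [Field L] [Algebra ℂ L] [Field k] [Algebra ℂ k]
  {f : Po 3} {M : Mod 3} {P : Pl (KK 3) L} {G : Pl L k} {e i : M.J}

/-- The exponent of the residue form along a double curve. -/
theorem Fl.exp_eq (h : Fl f M P G e i) {la : ℚ} {d : Dv L} (h3 : Exp (dvf f la) P.o 0)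
    (hd : P.RsD (dvf f la) d) {a : ℚ} (hE : Exp d G.o a) : a = M.ex la i := by
  obtain ⟨b, hb⟩ := h.ok.cov _ h.isc.2.1
  obtain ⟨l0, l1, l2, hl⟩ := h.labels hb
  obtain ⟨C, hC, hA⟩ := h.exists_co2 hb hl 0
  have hA3 := h.at3 hb hl 0
  have r := hC.th hA3 0
  have h1 := hE.of_eul hA.vz hA.eul
  have h2 := (hb _ (cht_ad h.ok b la l1)).2
  have v1 : P.o.v (M.S.z b l1) = 0 := hA3.vz' (j := 1) (by decide)
  have e0 : C.z 0 = P.π (M.S.z b l1) := hC 0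
  have e1 : P.π ((dvf f la).δ ((cht h.ok b).th l1)) = d.δ (C.th 0) := hd _ _ r
  have m1 : (dvf f la).δ ((cht h.ok b).th l1) ∈ P.o.F 0 := h3.reg _ r.1
  rw [Pl.π_div (u := (cht h.ok b).z l1) (sub_mem m1 (cst_F _ _)) ((cht h.ok b).ne l1) v1,
    Pl.π_sub m1 (cst_F _ _), e1, P.π_cst] at h2
  simp only [cex_some hl.h1] at h2
  have h4 := G.o.F_mul h2 (M3J.z0_F hA)
  rw [e0, zero_add, show P.π ((cht h.ok b).z l1) = P.π (M.S.z b l1) from rfl,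
    div_mul_cancel₀ _ (e0 ▸ C.ne 0)] at h4
  have h5 := sub_mem h4 h1
  rw [sub_sub_sub_cancel_left, ← map_sub] at h5
  exact_mod_cast sub_eq_zero.1 (cst_F1 h5)

/-- Local primitives in the lattice of a semiample divisor. -/
theorem lcc (E : EOut) (hM : M.OK f) {b : Polynomial ℂ} {β : Fin 3 → H59.PX 3 (KK 3)}
    {Q : H59.PX 3 (KK 3)} (hb : BSd f b β Q) (la : ℚ) {A : M.J → ℚ} (hA : M.SemiQ A)
    (h1 : A ≤ M.nu) : LCC M (dvf f la) (bf la β) (M.up A) := by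
  obtain ⟨w, μ, hμ, ⟨κ, _, bb, t, ρ, hw⟩, e⟩ := M3L.cw E hM hA
  obtain ⟨g, -, h2, -⟩ := cc2 hM hb la hw hμ fun j => by
    rw [e]
    exact Int.ceil_le.2 (by simpa [Mod.nu] using h1 j)
  intro V hV
  obtain ⟨i, hi⟩ := hw.cov V hV
  have h3 := (M3L.LS_val hM hw i V).2 ⟨hV, hi⟩
  exact ⟨bb i, M3L.LS_in hw h3, _, crl_mem _ _ (g i), fun l => h3 _ (e ▸ h2 i l)⟩

variable {Γ : DV L} {g : KK 3}

theorem lift_eq (P : Pl (KK 3) L) (Γ : DV L) : lift P Γ = cmp P Γ.O := rfl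

theorem un_lift (hg : g ∈ lift P Γ) : Un (lift P Γ) g ↔ P.π g ∉ Γ.F 1 := by
  rw [lift_eq, un_cmp, Γ.un_O]
  refine ⟨fun h h1 => ?_, fun h => ?_⟩
  · have := h1.resolve_left h.2.1
    rw [h.2.2] at this
    omega
  · have h0 : P.π g ≠ 0 := fun e => h (Or.inl e)
    exact ⟨un_of_pi hg.1 h0, h0, le_antisymm (not_lt.1 fun h1 => h (Or.inr h1))
      (hg.2.resolve_left h0)⟩

theorem cst_lift (c : ℂ) : algebraMap ℂ (KK 3) c ∈ lift P Γ :=
  ⟨cst_F _ c, by rw [P.π_cst]; exact cst_F _ c⟩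

theorem nc_iff (hg : g ∈ lift P Γ) : NC Γ (P.π g) ↔ Tc (lift P Γ) g := by
  refine (and_iff_right hg.2).trans (forall_congr' fun c => ?_)
  rw [un_lift (sub_mem hg (cst_lift c)), Pl.π_sub hg.1 (cst_F _ _), P.π_cst]

theorem ov_lift (hP : Ov P.o.O) (h : ∀ l, P.π (xx 3 l) ∈ Γ.F 0) : Ov (lift P Γ) :=
  M3L.ov_of_X cst_lift fun l => ⟨hP _, h l⟩

/-- A generator of the restricted family lifts to a generator. -/
theorem gen_of (B : Bas f M) (hP : P.o = M.v e) (hV : Ov (lift P Γ)) {c : M.J → ℤ}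
    {T : Finset (KK 3)} {S : Finset L} (hT : M.Gens c T) (hc : c e = 0)
    (hS : ∀ g ∈ T, P.π g ∈ S) (hg : g ∈ T) (h : GnS S Γ (P.π g)) :
    M.Gen (lift P Γ) c g ∧ ∀ g' ∈ T, g' / g ∈ lift P Γ ∧ P.π (g' / g) = P.π g' / P.π g := by
  have F0 : ∀ g ∈ T, g ∈ P.o.F 0 := fun g hg => by
    simpa [hP, hc] using B.R_F e c g (B.H_R e c (hT.1 g hg))
  have u := P.o.un_O.1 (un_of_pi (F0 g hg) h.2.1)
  have h1 : ∀ g' ∈ T, g' / g ∈ lift P Γ ∧ P.π (g' / g) = P.π g' / P.π g := fun g' hg' =>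
    have e1 := Pl.π_div (F0 g' hg') u.1 u.2
    ⟨⟨by simpa [u.2] using F_div (F0 g' hg') g, e1 ▸ h.2.2 _ (hS _ hg')⟩, e1⟩
  refine ⟨fun b hb => ?_, h1⟩
  obtain ⟨g0, m0, h0⟩ := hT.2 _ hV
  have h2 := h0 b hb
  rw [← div_mul_cancel₀ g0 u.1, mul_assoc, mul_comm] at h2
  exact h2.of_mul (hT.1 g hg _ hV b hb) (h1 g0 m0).1

end Gen

variable {f : Po 3} {la : ℚ} {b : Polynomial ℂ} {β : Fin 3 → H59.PX 3 (KK 3)}
  {Q : H59.PX 3 (KK 3)} {M : Mod 3} {C : Ch f M} {o : M.J} {X : Ch.AV (M := M) o} {Y : C.AS o}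

theorem pt_o (h : Sit f la b β Q M C o) (t : ℚ) : C.pt la o t o = 0 := by
  have : (M.a o : ℚ) ≠ 0 := Nat.cast_ne_zero.2 (h.ok.pos o).ne'
  simp [Ch.pt, Ch.hp, h.zero, Mod.aa, this]

theorem c_e (h : Sit f la b β Q M C o) {t : ℚ} {m : ℕ} {c : C.W.J → ℤ}
    (hc : C.W.q c = m • C.P (C.pt la o t)) : c (C.D.e o) = 0 := by
  have := congrFun hc (C.D.e o)
  rw [Pi.smul_apply, h.alive, pt_o h, smul_zero] at this
  exact Int.cast_eq_zero.1 this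

/-- A curve that is not contracted and meets a trace is a double curve of the upper model. -/
theorem cv_of (E : EOut) (hUp : SUp) {Γ : DV (M.v o).kf}
    (hΓ : M3.Cv (C.sd la b o X Y).x Γ) {τ : KK 3}
    (hτ : ∀ a, C.W.In a (lift (M.v o).pl Γ) → Lc (C.W.S.A a) (lift (M.v o).pl Γ) τ)
    (ht : Tc (lift (M.v o).pl Γ) τ) {j : C.Nb o} (hj : (C.sd la b o X Y).β j Γ ≠ 0) :
    ∃ i, Fl f C.W (M.v o).pl Γ.pl (C.D.e o) i ∧
      ∀ k, (C.sd la b o X Y).β k Γ = C.P (M.q (M.e k.1)) i := by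
  have B := E.bas _ f _ C.ok
  have po : (M.v o).pl.o = C.W.v (C.D.e o) := (C.D.v o).symm
  have hV := ov_lift (po ▸ B.ov_v _) hΓ.bas
  have ha := C.ok.cov _ hV
  have hb := ha.choose_spec
  have tr : ∀ i, C.W.tr (M.v o).pl Γ i = Γ.v ((M.v o).pl.π (C.W.η ha.choose i)) := fun i =>
    dif_pos ha
  have le : lift (M.v o).pl Γ ≤ (C.W.v (C.D.e o)).O := po ▸ cmp_le _ Γ.O
  have t0 : ∀ i, ¬C.W.Thru (lift (M.v o).pl Γ) i → C.W.tr (M.v o).pl Γ i = 0 := fun i hi => by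
    rw [B.thru_iff _ _ _ hb, not_not] at hi
    rw [tr]
    exact (Γ.un_O.1 (un_cmp.1 (lift_eq _ Γ ▸ hi)).2).2
  have t1 : C.W.tr (M.v o).pl Γ (C.D.e o) = 0 := by
    have h1 := B.v_mon _ (C.D.e o) ((1 : ℤ) • C.W.e (C.D.e o)) fun g hg => le (hb g hg)
    rw [B.mon_e, zpow_one, ← po] at h1
    rw [tr, (M.v o).pl.π_F1 (Or.inr (by simpa [Mod.e_apply] using h1.ge)), Γ.zero]
  obtain ⟨i, -, hi⟩ := exists_ne_zero_of_sum_ne_zero hj
  have h1 : C.W.tr (M.v o).pl Γ i ≠ 0 := fun e => hi (by rw [e, Int.cast_zero, mul_zero])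
  have hF : Fl f C.W (M.v o).pl Γ.pl (C.D.e o) i :=
    ⟨C.ok, B, E.der _ f _ C.ok, E.cv _ f _ C.ok, rowUnr, po, hΓ.sur,
      hUp f _ C.ok _ i _ _ τ (fun e => h1 (e ▸ t1)) hb le (not_not.1 fun e => h1 (t0 i e))
        (hτ _ hb) ht⟩
  refine ⟨i, hF, fun k => (sum_eq_single i (fun i' _ h2 => ?_) (by simp)).trans ?_⟩
  · by_cases h3 : C.W.Thru (lift (M.v o).pl Γ) i'
    · rw [(hF.cv.thru _ _ _ i' hF.isc h3).resolve_right h2, t1, Int.cast_zero, mul_zero]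
    · rw [t0 i' h3, Int.cast_zero, mul_zero]
  · rw [tr, show Γ.v _ = 1 from hF.v_i hb, Int.cast_one, mul_one]

theorem iz0 (E : EOut) (hUp : SUp) (hVol : IVol) : IZ0 := by
  classical
  intro f la b β Q M C o X Y h hX hY ht Γ j hΓ hN hC ha hx
  have B := E.bas _ f _ C.ok
  have NG := rowNg0 E _ f _ C.ok
  have KA := rowKa E (rowNg0 E) _ f M C h.ok
  have KB := rowKb E (rowKa E (rowNg0 E)) _ f M C h.ok
  have vol := hVol _ _ _ _ _ _ _ _ _ _ h hX hY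
  have po : (M.v o).pl.o = C.W.v (C.D.e o) := (C.D.v o).symm
  have hV := ov_lift (po ▸ B.ov_v _) hΓ.bas
  obtain ⟨s, hs, s', hs', hn⟩ : ∃ s, GnS (C.sd la b o X Y).S1 Γ s ∧
      ∃ s' ∈ (C.sd la b o X Y).S1, NC Γ (s' / s) := by
    by_contra! hn
    exact hN ⟨hx, hn⟩
  obtain ⟨g, hg, rfl⟩ := mem_image.1 hs.1
  obtain ⟨g', hg', rfl⟩ := mem_image.1 hs'
  obtain ⟨a1, a2⟩ := gen_of B po hV hY.T1 (c_e h hY.c1) (fun _ => mem_image_of_mem _) hg hs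
  obtain ⟨i, hF, hβ⟩ := cv_of E hUp hΓ
    (fun a ha => NG.lc _ _ a g (hY.T1.1 g hg) g' (hY.T1.1 g' hg') ha a1)
    ((nc_iff (a2 g' hg').1).1 ((a2 g' hg').2 ▸ hn)) (j := j) (hC.2.1 ▸ one_ne_zero)
  have h3 : Exp (dvf f la) (M.v o).pl.o 0 := by
    have := exp_v h.ok la o
    rwa [h.zero, Rat.cast_zero] at this
  have x0 : (C.sd la b o X Y).ex Γ = 0 := by
    refine hC.1.trans (sum_eq_zero fun k _ => ?_)
    by_cases e : k = j
    · rw [e, ha, zero_mul]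
    · rw [hC.2.2 k e, mul_zero]
  have hE := vol.exp Γ hΓ
  have x1 := hF.exp_eq h3 hX.rd hE
  rw [x0] at hE x1
  rw [Rat.cast_zero] at hE
  have x2 : C.P (M.ex la) i = 0 := by
    rw [LinearMap.pi_apply_eq_sum_univ, Finset.sum_apply]
    refine sum_eq_zero fun k _ => ?_
    have e : (fun l => if k = l then 1 else 0) = M.q (M.e k) := funext fun l => by
      simp [Mod.e_apply, eq_comm]
    rw [e, Pi.smul_apply, smul_eq_mul]
    by_cases e1 : k = o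
    · rw [e1, h.zero, zero_mul]
    by_cases e2 : C.Alive k
    swap
    · rw [KA.dead k e2, Pi.zero_apply, mul_zero]
    by_cases e3 : (⟨k, e1, e2⟩ : C.Nb o) = j
    · subst e3
      rw [show M.ex la k = 0 from ha, zero_mul]
    · rw [← hβ ⟨k, e1, e2⟩, hC.2.2 _ e3, mul_zero]
  have x3 : C.P M.nu = C.P (M.ex la) + la • C.W.q C.W.aa := by
    rw [← KA.aa, ← map_smul, ← map_add]
    exact congrArg _ (funext fun l => by simp [Mod.nu, Mod.ex, Mod.aa])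
  have c0 : C.W.q Y.c0 = Y.m • C.P (M.ex la) := by simpa [Ch.pt, ht] using hY.c0
  have ce := c_e h hY.c0
  have ci : Y.c0 i = 0 := by
    have := congrFun c0 i
    rw [Pi.smul_apply, x2, smul_zero] at this
    exact Int.cast_eq_zero.1 this
  have n0 := h.ok.pos o
  have hr : ((Y.m * (M.k o + 1) : ℕ) : ℚ) = (M.a o * Y.m : ℕ) * la := by
    have := sub_eq_zero.1 h.zero
    push_cast
    rw [this]
    ring
  have f0 := M3RESID.f_ne h.ok
  obtain ⟨r, er⟩ : ∃ r, r = Y.m * (M.k o + 1) := ⟨_, rfl⟩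
  rw [← er] at hr
  have gf : ∀ V, C.W.Gen V (r • C.W.aa) (ip 3 f ^ r)⁻¹ := fun V => by
    simpa using B.gen_inv _ _ _ (B.gen_pow _ _ _ r (B.gen_f V))
  have hH : ∀ g ∈ Y.T0, g ^ M.a o * (ip 3 f ^ r)⁻¹ ∈ C.W.H (M.a o • Y.c0 + r • C.W.aa) :=
    fun g hg V hV => B.oc_mul _ _ _ _ _ (B.oc_pow _ _ _ _ (hY.T0.1 g hg V hV))
      (B.gen_oc _ _ _ (gf V))
  have key := fun g hg (hG : C.W.Gen (lift (M.v o).pl Γ) Y.c0 g) =>
    hF.zero vol.srf hE h3 hX.rd hX.rv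
    (lcc E C.ok h.hyp.bs la (KA.semi _ (by simpa [ht] using C.mem)) (sub_nonneg.1 KB.dl0))
    (by
      have := sub_eq_zero.1 ((KB.alive o).1 h.alive)
      rw [Mod.up, ← this, Mod.nu]
      exact_mod_cast Int.ceil_natCast (R := ℚ) (C.W.k (C.D.e o) + 1))
    (by
      have : C.P M.nu i = ((C.W.k i + 1 : ℕ) : ℚ) := by
        rw [x3, Pi.add_apply, x2, zero_add]
        simpa [Mod.aa] using (sub_eq_zero.1 x1.symm).symm
      rw [Mod.up, this]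
      exact_mod_cast Int.ceil_natCast (R := ℚ) (C.W.k i + 1))
    (Nat.mul_pos n0 hY.m) hr (fun l => by
      have e1 := congrFun c0 l
      have e2 := congrFun x3 l
      have e3 := mul_le_mul_of_nonneg_left (Int.le_ceil (C.P M.nu l))
        (Nat.cast_nonneg (α := ℚ) (M.a o * Y.m))
      refine Int.cast_le (R := ℚ).1 ?_
      simp only [Mod.q_apply, Pi.smul_apply, Pi.add_apply, nsmul_eq_mul, smul_eq_mul, Mod.up,
        Int.cast_add, Int.cast_mul, Int.cast_natCast, Pi.mul_apply, Pi.natCast_apply] at e1 e2 ⊢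
      refine le_of_eq_of_le ?_ e3
      rw [e1, hr, e2]
      push_cast
      ring)
    (by simp [ce, Mod.aa]) (by simp [ci, Mod.aa])
    (fun l => not_forall.1 fun e => hx l ((nc_iff ⟨B.ov_v _ _ |> (po ▸ ·), hΓ.bas l⟩).2 e))
    (hH g hg) (B.gen_mul _ _ _ _ _ (B.gen_pow _ _ _ _ hG) (gf _))
  refine ⟨⟨hx, fun s hs s' hs' hn => ?_⟩, ?_⟩
  · obtain ⟨g, hg, rfl⟩ := mem_image.1 hs.1
    obtain ⟨g', hg', rfl⟩ := mem_image.1 hs'
    obtain ⟨a1, a2⟩ := gen_of B po hV hY.T0 ce (fun _ => mem_image_of_mem _) hg hs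
    obtain ⟨κ, hκ⟩ := (key g hg a1).2 _ (hH g' hg')
    rw [mul_div_mul_right _ _ (inv_ne_zero (pow_ne_zero _ f0)), ← div_pow] at hκ
    have := rowTc _ _ _ hV ((nc_iff (a2 g' hg').1).1 ((a2 g' hg').2 ▸ hn)) _
      (Polynomial.X_pow_sub_C_ne_zero n0 κ)
    rw [map_sub, map_pow, Polynomial.aeval_X, Polynomial.aeval_C] at this
    exact hκ this
  · obtain ⟨g, hg, hG⟩ := hY.T0.2 _ hV
    have h1 := (key g hg hG).1
    rw [inv_mul_cancel_right₀ (pow_ne_zero _ f0)] at h1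
    have m0 := h1 0
    rw [map_zero, sub_zero] at m0
    have m1 : g ∈ lift (M.v o).pl Γ := (Un.of_pow n0 m0).2.1
    refine ⟨_, mem_image_of_mem _ hg, (nc_iff m1).2 fun κ => ?_⟩
    have h2 := h1 (κ ^ M.a o)
    rw [map_pow, ← Commute.mul_geom_sum₂ (Commute.all _ _)] at h2
    exact h2.of_mul (sub_mem m1 (cst_lift κ)) (sum_mem fun _ _ =>
      mul_mem (pow_mem m1 _) (pow_mem (cst_lift κ) _))

theorem rowZ0 (E : EOut) (hVol : IVol) : IZ0 := iz0 E (rowUp E rowTr rowTc) hVol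

end

end Pool.Agent.MP_ee8c61_ag.M3Z
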