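import Pool.Agent.MP_ee8c61_ag.M3F.Kit
import Pool.Agent.MP_ee8c61_ag.M3J.Core
import Pool.Agent.MP_ee8c61_ag.M3RESID.Val
import Pool.Agent.MP_ee8c61_ag.M3C.RDer

/-!
The residue of a primitive along a complete curve of exponent zero.
-/

namespace Pool.Agent.MP_ee8c61_ag.M3Z

open M3 M3RESID WithZero Pool.Agent.MP_cce4c9_lc Pool.Agent.MP_cce4c9_lc.H87

noncomputable section

variable {L k : Type} [Field L] [Algebra ℂ L] [Field k] [Algebra ℂ k]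

section Pl

variable (P : Pl L k)

theorem pi_cst (c : ℂ) : P.π (algebraMap ℂ L c) = algebraMap ℂ k c := (P.cst c).2

theorem pi_zero : P.π 0 = 0 := by simpa using pi_cst P 0

theorem pi_one : P.π 1 = 1 := by simpa using pi_cst P 1

theorem pi_nat (n : ℕ) : P.π n = n := by simpa using pi_cst P n

variable {P}

theorem F10 {o : DV L} {g : L} (h : g ∈ o.F 1) : g ∈ o.F 0 := o.F_anti (by omega) h

theorem pi_sub {g h : L} (hg : g ∈ P.o.F 0) (hh : h ∈ P.o.F 0) :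
    P.π (g - h) = P.π g - P.π h := by
  have := P.add _ (sub_mem hg hh) _ hh
  rw [sub_add_cancel] at this
  rw [this, add_sub_cancel_right]

theorem pi_neg {g : L} (hg : g ∈ P.o.F 0) : P.π (-g) = -P.π g := by
  rw [← zero_sub, pi_sub (zero_mem _) hg, pi_zero, zero_sub]

theorem pi_F1 {g : L} (h : g ∈ P.o.F 1) : P.π g = 0 := (P.ker g (F10 h)).2 h

theorem pi_congr {g h : L} (hh : h ∈ P.o.F 0) (e : g - h ∈ P.o.F 1) : P.π g = P.π h := by
  have := P.add _ (F10 e) _ hh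
  rwa [sub_add_cancel, pi_F1 e, zero_add] at this

theorem pow_F0 {o : DV L} {g : L} (hg : g ∈ o.F 0) (n : ℕ) : g ^ n ∈ o.F 0 := o.O.pow_mem hg n

theorem pi_pow {g : L} (hg : g ∈ P.o.F 0) (n : ℕ) : P.π (g ^ n) = P.π g ^ n := by
  induction n with
  | zero => simp [pi_one]
  | succ n ih => rw [pow_succ, P.mul _ (pow_F0 hg n) _ hg, ih, pow_succ]

theorem pi_ne {g : L} (h0 : g ≠ 0) (hg : P.o.v g = 0) : P.π g ≠ 0 := fun h => by
  have := ((P.ker g (Or.inr hg.ge)).1 h).resolve_left h0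
  omega

theorem pi_inv {g : L} (h0 : g ≠ 0) (hg : P.o.v g = 0) : P.π g⁻¹ = (P.π g)⁻¹ := by
  have := P.mul g (Or.inr hg.ge) g⁻¹ (Or.inr (by rw [P.o.inv]; omega))
  rw [mul_inv_cancel₀ h0, pi_one] at this
  exact eq_inv_of_mul_eq_one_right this.symm

theorem pi_div {g h : L} (hg : g ∈ P.o.F 0) (h0 : h ≠ 0) (hh : P.o.v h = 0) :
    P.π (g / h) = P.π g / P.π h := by
  rw [div_eq_mul_inv, P.mul _ hg _ (Or.inr (by rw [P.o.inv]; omega)), pi_inv h0 hh, div_eq_mul_inv]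

theorem pi_zpow {g : L} (h0 : g ≠ 0) (hg : P.o.v g = 0) (n : ℤ) : P.π (g ^ n) = P.π g ^ n := by
  obtain ⟨m, rfl | rfl⟩ := Int.eq_nat_or_neg n
  · rw [zpow_natCast, zpow_natCast, pi_pow (Or.inr hg.ge)]
  · rw [zpow_neg, zpow_neg, zpow_natCast, zpow_natCast,
      pi_inv (pow_ne_zero _ h0) (by rw [v_pow _ h0, hg, mul_zero]), pi_pow (Or.inr hg.ge)]

/-- Logarithmic fields restrict to the residue field. -/
theorem exists_Rs (P : Pl L k) {X : VF L} (hX : X ∈ LV P.o 0) : ∃ w, P.Rs X w := by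
  choose σ h0 hσ using P.surj
  have hX0 : ∀ g ∈ P.o.F 0, X g ∈ P.o.F 0 := fun g hg => by simpa using hX 0 g hg
  have key : ∀ g ∈ P.o.F 0, P.π (X (σ (P.π g))) = P.π (X g) := fun g hg => by
    refine pi_congr (hX0 g hg) ?_
    rw [← map_sub]
    have : σ (P.π g) - g ∈ P.o.F 1 :=
      (P.ker _ (sub_mem (h0 _) hg)).1 (by rw [pi_sub (h0 _) hg, hσ, sub_self])
    simpa using hX 1 _ this
  have hmul : ∀ a b, P.π (X (σ (a * b))) = a * P.π (X (σ b)) + b * P.π (X (σ a)) := fun a b => by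
    have := key _ (F_mul0 (h0 a) (h0 b))
    rw [P.mul _ (h0 a) _ (h0 b), hσ, hσ] at this
    rw [this, Derivation.leibniz, smul_eq_mul, smul_eq_mul,
      P.add _ (F_mul0 (h0 a) (hX0 _ (h0 b))) _ (F_mul0 (h0 b) (hX0 _ (h0 a))),
      P.mul _ (h0 a) _ (hX0 _ (h0 b)), P.mul _ (h0 b) _ (hX0 _ (h0 a)), hσ, hσ]
  refine ⟨Derivation.mk'
    { toFun := fun y => P.π (X (σ y))
      map_add' := fun a b => ?_
      map_smul' := fun c a => ?_ } fun a b => ?_, hX, fun g hg => (key g hg).symm⟩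
  · have := key _ (add_mem (h0 a) (h0 b))
    rw [P.add _ (h0 a) _ (h0 b), hσ, hσ] at this
    rw [this, map_add, P.add _ (hX0 _ (h0 a)) _ (hX0 _ (h0 b))]
  · have := key _ (P.cst c).1
    rw [pi_cst, Derivation.map_algebraMap, pi_zero] at this
    rw [Algebra.smul_def, hmul, this, mul_zero, add_zero, RingHom.id_apply, Algebra.smul_def]
  · exact hmul a b

end Pl

/-- The change of variables formula for the divergence on a surface. -/
theorem jacobi (C C' : Co L 2) (X : VF L) :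
    C'.dv.δ X = C.dv.δ X + X (M3J.br C (C'.z 0) (C'.z 1)) / M3J.br C (C'.z 0) (C'.z 1) := by
  obtain ⟨J, hJ⟩ : ∃ J, J = M3J.br C (C'.z 0) (C'.z 1) := ⟨_, rfl⟩
  have h0 : J ≠ 0 := hJ ▸ M3J.br_ne C C'
  have key : ∀ t : L, (C.dv.tw J 1).δ (J⁻¹ • M3F.fib C t) = 0 := fun t => by
    rw [Dv.tw_δ, C.dv.smul, M3F.fib_dv, Derivation.leibniz_inv, Derivation.smul_apply]
    simp only [smul_eq_mul, map_one]
    field_simp
    ring
  have e0 : C'.D 0 = J⁻¹ • M3F.fib C (C'.z 1) := M3J.ext2 C' (by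
    rw [Derivation.smul_apply, M3F.fib_ap, C'.dual, if_pos rfl, smul_eq_mul, eq_comm,
      inv_mul_eq_one₀ h0, hJ, M3J.br]
    ring) (by rw [Derivation.smul_apply, M3F.fib_self, C'.dual]; simp)
  have e1 : C'.D 1 = -(J⁻¹ • M3F.fib C (C'.z 0)) := M3J.ext2 C' (by
    rw [Derivation.neg_apply, Derivation.smul_apply, M3F.fib_self, C'.dual]; simp) (by
    rw [Derivation.neg_apply, Derivation.smul_apply, M3F.fib_ap, C'.dual, if_pos rfl, smul_eq_mul,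
      eq_comm, ← mul_neg, inv_mul_eq_one₀ h0, hJ, M3J.br]
    ring)
  have := M3J.dv2 (C.dv.tw J 1) C' X
  rw [show (C.dv.tw J 1).δ (C'.D 0) = 0 from e0 ▸ key _,
    show (C.dv.tw J 1).δ (C'.D 1) = 0 by rw [e1, map_neg, key, neg_zero], Dv.tw_δ] at this
  rw [← hJ, Co.dv_δ, Fin.sum_univ_two]
  simp only [map_one, one_mul, mul_zero, zero_add] at this
  exact this.symm

section Chart

variable {G : Pl L k} {d : Dv L} {C : Co L 2} (hA : C.At G.o 0) (hE : Exp d G.o 0)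
include hA

theorem ap_F1 {X : VF L} (h0 : X (C.z 0) ∈ G.o.F 1) {g : L} (hg : g ∈ G.o.F 0) :
    X g - X (C.z 1) * C.D 1 g ∈ G.o.F 1 := by
  rw [M3J.ap2 C X g, add_sub_cancel_right]
  exact F_mul0' h0 (hA.D 0 g hg)

theorem rs_eq {X : VF L} {w D : VF k} (hw : G.Rs X w) (hD : G.Rs (C.D 1) D) (y : k) :
    w y = G.π (X (C.z 1)) * D y := by
  obtain ⟨g, hg, rfl⟩ := G.surj y
  obtain ⟨h0, h1⟩ := (M3J.mem_LV hA).1 hw.1
  rw [← hw.2 g hg, ← hD.2 g hg, ← G.mul _ h1 _ (hA.D 1 g hg)]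
  exact pi_congr (F_mul0 h1 (hA.D 1 g hg)) (ap_F1 hA (by simpa using h0) hg)

include hE

theorem exact_F1 {u : VF L} (hu : u ∈ d.Ex) (h : u ∈ LV G.o 0) {g : L} (hg : g ∈ G.o.F 0) :
    u g ∈ G.o.F 1 := by
  obtain ⟨t, rfl⟩ := M3J.exists_ex d C hu
  have ht := M3J.F_of_ex hA hE (c := 0) (fun m hm => by
    rw [zero_add]; exact_mod_cast hm.ne) h
  have h1 := M3J.ex_lead hA hE (m := 0) ht
  rw [Int.cast_zero, add_zero, map_zero, zero_mul, sub_zero] at h1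
  have h2 : M3J.ex d C t (C.z 1) ∈ G.o.F 1 :=
    M3J.F_cancel (C.ne 0) (M3J.F_of_eq h1 (by simp [hA.v]))
  have h3 := add_mem (ap_F1 hA (by simpa using ((M3J.mem_LV hA).1 h).1) hg)
    (F_mul0' h2 (hA.D 1 g hg))
  rwa [sub_add_cancel] at h3

theorem dv_res {X : VF L} (hX : X ∈ LV G.o 0) {D : VF k} (hD : G.Rs (C.D 1) D) :
    G.π (d.δ X) = G.π (X (C.z 1)) * G.π (d.δ (C.D 1)) + D (G.π (X (C.z 1))) := by
  obtain ⟨h0, h1⟩ := (M3J.mem_LV hA).1 hX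
  have h2 := M3J.dv_D1 hA hE
  have h3 := M3J.dv_D0 hA hE
  rw [map_zero, sub_zero] at h3
  have hh : X (C.z 0) / C.z 0 ∈ G.o.F 0 := by simpa [hA.v] using F_div h0 (C.z 0)
  rw [← hD.2 _ h1, ← G.mul _ h1 _ h2, ← G.add _ (F_mul0 h1 h2) _ (hA.D 1 _ h1)]
  refine pi_congr (add_mem (F_mul0 h1 h2) (hA.D 1 _ h1)) ?_
  have e : d.δ X - (X (C.z 1) * d.δ (C.D 1) + C.D 1 (X (C.z 1))) =
      X (C.z 0) / C.z 0 * (C.z 0 * d.δ (C.D 0) + 1) + C.z 0 * C.D 0 (X (C.z 0) / C.z 0) := by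
    have := C.ne 0
    rw [M3J.dv2 d C X, Derivation.leibniz_div, C.dual, if_pos rfl]
    simp only [smul_eq_mul]
    field_simp
    ring
  rw [e]
  exact add_mem (F_mul0 hh h3) (F_mul0' (M3J.z0_F hA) (hA.D 0 _ hh))

end Chart

theorem eul (hk : IsFF ℂ k) (x : Place ℂ k) {D : VF k} {z : k} (hz : x.ord z = 1) (hD : D z = 1)
    {h : k} (h0 : h ≠ 0) : x.val (z * D h / h - algebraMap ℂ k (x.ord h)) < 1 := by
  have z0 : z ≠ 0 := fun e => by simp [e] at hz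
  have hv : x.val z = exp (-1 : ℤ) := by rw [x.val_eq (x.val_ne z0), hz]
  have hD0 : D ≠ 0 := fun e => by simp [e] at hD
  have hu0 : h / z ^ x.ord h ≠ 0 := div_ne_zero h0 (zpow_ne_zero _ z0)
  have hu : x.val (h / z ^ x.ord h) = 1 := by
    rw [x.val_one_iff (x.val_ne hu0), div_eq_mul_inv,
      x.ord_mul (x.val_ne h0) (x.val_ne (inv_ne_zero (zpow_ne_zero _ z0))), x.ord_inv, x.ord_zpow,
      hz]
    ring
  have h1 := (M3C.rowDer ℂ k hk D hD0).2 x z hv _ hu.le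
  rw [hD, map_one] at h1
  have e : z * D h / h - algebraMap ℂ k (x.ord h) =
      z * D (h / z ^ x.ord h) / (h / z ^ x.ord h) := by
    have := zpow_ne_zero (x.ord h) z0
    rw [Derivation.leibniz_div, Dv.zpow_der D z z0, hD, map_intCast]
    simp only [smul_eq_mul]
    field_simp
  rw [e, map_div₀, hu, div_one, map_mul, hv]
  refine (mul_le_of_le_one_right' h1).trans_lt ?_
  rw [← exp_zero, exp_lt_exp]
  omega

/-- Coordinates adapted to the curve `G` and to the place `x` of its function field, in which a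
representative of `v` has exponent at least `β`. -/
def Flag (G : Pl L k) (d : Dv L) (v : VF L) (x : Place ℂ k) (β : ℚ) : Prop :=
  ∃ (C : Co L 2) (a : ℚ) (n : ℤ) (u : VF L), C.At G.o 0 ∧ x.ord (G.π (C.z 1)) = 1 ∧ u ∈ d.Ex ∧
    v - u ∈ LV G.o 0 ∧ x.val (G.π ((v - u) (C.z 1))) ≤ exp (-(n + 1)) ∧
    x.val (G.π (d.δ (C.th 1)) - algebraMap ℂ k a) < 1 ∧ β ≤ a + n

theorem zl {G : Pl L k} (hk : IsFF ℂ k) {C₀ : Co L 2} {d : Dv L} {v : VF L} {b : ℂ}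
    (h : M3F.Srf C₀ d v b) (hE : Exp d G.o 0) (β : Place ℂ k → ℚ) (hβ : ∀ x, Flag G d v x (β x)) :
    ∃ (q : ℕ) (F : k), 0 < q ∧ F ∉ Set.range (algebraMap ℂ k) ∧ ∀ x, q * β x ≤ x.ord F := by
  have := M3F.cz k
  have := M3F.cz L
  obtain ⟨q, ψ, hq, hψ, hd⟩ := h.rat
  have hq' : (q : k) ≠ 0 := Nat.cast_ne_zero.2 hq.ne'
  have hb : algebraMap ℂ k b ≠ 0 := (map_ne_zero _).2 h.ne
  have hinf := (H7.ll ℂ k hk).2.2.2
  obtain ⟨C, -, -, u, hA, -, hu, hX, -⟩ := hβ (Classical.arbitrary _)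
  obtain ⟨w, hw⟩ := exists_Rs G hX
  have star : ∀ (C : Co L 2) (u' : VF L), C.At G.o 0 → u' ∈ d.Ex → v - u' ∈ LV G.o 0 →
      ∃ D, G.Rs (C.D 1) D ∧ D (G.π (C.z 1)) = 1 ∧ (∀ y, w y = G.π ((v - u') (C.z 1)) * D y) ∧
        G.π ((v - u') (C.z 1)) ≠ 0 ∧ algebraMap ℂ k b = G.π ((v - u') (C.z 1)) *
          G.π (d.δ (C.D 1)) + D (G.π ((v - u') (C.z 1))) := fun C u' hA hu' hX' => by
    obtain ⟨D, hD⟩ := exists_Rs G (hA.D_LV (j := 1) (by decide))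
    have hw' : G.Rs (v - u') w := ⟨hX', fun g hg => by
      rw [← hw.2 g hg]
      refine pi_congr (by simpa using hX 0 g hg) ?_
      have e : u - u' = (v - u') - (v - u) := by abel
      rw [← Derivation.sub_apply, ← e]
      exact exact_F1 hA hE (sub_mem hu hu') (e ▸ sub_mem hX' hX) hg⟩
    have h1 := dv_res hA hE hX' hD
    rw [map_sub, h.prim, d.δ_Ex hu', sub_zero, pi_cst] at h1
    refine ⟨D, hD, ?_, rs_eq hA hw' hD, fun e => hb ?_, h1⟩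
    · rw [← hD.2 _ (M3J.z1_F hA), C.dual, if_pos rfl, pi_one]
    · rw [h1, e, map_zero, zero_mul, add_zero]
  obtain ⟨D, hD, -, hwD, hg, hs⟩ := star C u hA hu hX
  obtain ⟨g, hge⟩ : ∃ g, g = G.π ((v - u) (C.z 1)) := ⟨_, rfl⟩
  rw [← hge] at hwD hg hs
  obtain ⟨J, hJ⟩ : ∃ J, J = M3J.br C (C₀.z 0) (C₀.z 1) := ⟨_, rfl⟩
  have hJ0 : J ≠ 0 := hJ ▸ M3J.br_ne C C₀
  obtain ⟨N, hN⟩ : ∃ N, N = G.o.v (ψ * J ^ q) := ⟨_, rfl⟩
  have hΨ0 : ψ * J ^ q ≠ 0 := mul_ne_zero hψ (pow_ne_zero _ hJ0)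
  have hz := zpow_ne_zero N (C.ne 0)
  have hΨ : ψ * J ^ q / C.z 0 ^ N ≠ 0 := div_ne_zero hΨ0 hz
  have hΨv : G.o.v (ψ * J ^ q / C.z 0 ^ N) = 0 := by
    rw [div_eq_mul_inv, G.o.mul _ _ hΨ0 (inv_ne_zero hz), G.o.inv, v_zpow _ (C.ne 0), hA.vz, ← hN]
    ring
  have hκ : (q : L) * d.δ (C.D 1) = C.D 1 (ψ * J ^ q / C.z 0 ^ N) / (ψ * J ^ q / C.z 0 ^ N) := by
    have hqL : (q : L) ≠ 0 := Nat.cast_ne_zero.2 hq.ne'
    obtain ⟨r, rfl⟩ : ∃ r, q = r + 1 := ⟨q - 1, by omega⟩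
    rw [hd, jacobi C C₀, ← hJ, Co.dv_δ, Fin.sum_univ_two, C.dual, C.dual, Derivation.leibniz_div,
      Dv.zpow_der _ _ (C.ne 0), C.dual, Derivation.leibniz, Derivation.leibniz_pow]
    simp only [smul_eq_mul, nsmul_eq_mul, Nat.add_sub_cancel]
    simp
    field_simp
    ring
  obtain ⟨Ψ, hΨe⟩ : ∃ Ψ, Ψ = ψ * J ^ q / C.z 0 ^ N := ⟨_, rfl⟩
  rw [← hΨe] at hΨ hΨv hκ
  have hΨF : Ψ ∈ G.o.F 0 := Or.inr hΨv.ge
  have hp := pi_ne hΨ hΨv
  have hκ' : (q : k) * G.π (d.δ (C.D 1)) = D (G.π Ψ) / G.π Ψ := by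
    rw [← hD.2 _ hΨF, ← pi_div (hA.D 1 _ hΨF) hΨ hΨv, ← hκ,
      G.mul _ (by simpa using int_F (o := G.o) q) _ (M3J.dv_D1 hA hE), pi_nat]
  have hF0 : g ^ q * G.π Ψ ≠ 0 := mul_ne_zero (pow_ne_zero _ hg) hp
  have hF : w (g ^ q * G.π Ψ) = q * algebraMap ℂ k b * (g ^ q * G.π Ψ) := by
    rw [eq_div_iff hp] at hκ'
    obtain ⟨r, rfl⟩ : ∃ r, q = r + 1 := ⟨q - 1, by omega⟩
    rw [hwD, Derivation.leibniz, Derivation.leibniz_pow, hs, ← hκ']
    simp only [smul_eq_mul, nsmul_eq_mul, Nat.add_sub_cancel]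
    ring
  obtain ⟨F, hFe⟩ : ∃ F, F = g ^ q * G.π Ψ := ⟨_, rfl⟩
  rw [← hFe] at hF0 hF
  refine ⟨q, F, hq, ?_, fun x => ?_⟩
  · rintro ⟨c, rfl⟩
    rw [Derivation.map_algebraMap] at hF
    exact mul_ne_zero (mul_ne_zero hq' hb) hF0 hF.symm
  obtain ⟨C', a, n, u', hA', hz', hu', hX', hn, ha, hβ'⟩ := hβ x
  obtain ⟨D', -, hD1, hwD', hg', hs'⟩ := star C' u' hA' hu' hX'
  obtain ⟨g', hge'⟩ : ∃ g', g' = G.π ((v - u') (C'.z 1)) := ⟨_, rfl⟩
  rw [← hge'] at hwD' hg' hs' hn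
  have hth : G.π (d.δ (C'.th 1)) = G.π (C'.z 1) * G.π (d.δ (C'.D 1)) + 1 := by
    rw [Co.th, d.smul, C'.dual, if_pos rfl, G.add _ (F_mul0 (M3J.z1_F hA') (M3J.dv_D1 hA' hE)) _
      one_F, G.mul _ (M3J.z1_F hA') _ (M3J.dv_D1 hA' hE), pi_one]
  have e1 := eul hk x hz' hD1 hF0
  have e2 := eul hk x hz' hD1 hg'
  have e3 : G.π (C'.z 1) * D' F / F - algebraMap ℂ k (q * (a - 1 + x.ord g')) =
      algebraMap ℂ k q * ((G.π (d.δ (C'.th 1)) - algebraMap ℂ k a) +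
        (G.π (C'.z 1) * D' g' / g' - algebraMap ℂ k (x.ord g'))) := by
    have h1 : D' F = q * algebraMap ℂ k b * F / g' := by
      rw [eq_div_iff hg', ← hF, hwD', mul_comm]
    rw [hth, h1, hs']
    simp only [map_mul, map_add, map_sub, map_one, map_natCast]
    field_simp
    ring
  have e4 : x.val (G.π (C'.z 1) * D' F / F - algebraMap ℂ k (q * (a - 1 + x.ord g'))) < 1 := by
    rw [e3, map_mul]
    exact (mul_le_of_le_one_left' (x.const_le _)).trans_lt (x.val.map_add_lt ha e2)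
  have e5 : ((x.ord F : ℤ) : ℚ) = q * (a - 1 + x.ord g') := by
    have := x.const_eq e1 e4
    exact_mod_cast this
  have e6 : ((n + 1 : ℤ) : ℚ) ≤ x.ord g' := by
    have := (x.val_le_exp (x.val_ne hg') _).1 hn
    rw [neg_neg] at this
    exact_mod_cast this
  rw [e5]
  push_cast at e6
  exact mul_le_mul_of_nonneg_left (by linarith) (Nat.cast_nonneg q)

end

end Pool.Agent.MP_ee8c61_ag.M3Z
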