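import Pool.Agent.MP_ee8c61_ag.M3Z.Geo
import Pool.Agent.MP_ee8c61_ag.M3.Defs

/-!
Coordinates along a curve on a divisor of a model.
-/

namespace Pool.Agent.MP_ee8c61_ag.M3Z

open M3 M3E M3RESID WithZero Pool.Agent.MP_cce4c9_lc Pool.Agent.MP_cce4c9_lc.H87
open scoped IntermediateField

noncomputable section

variable {L k : Type} [Field L] [Algebra ℂ L] [Field k] [Algebra ℂ k]

theorem un_of_pi {P : Pl L k} {g : L} (hg : g ∈ P.o.F 0) (h : P.π g ≠ 0) : Un P.o.O g := by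
  have h0 : g ≠ 0 := fun e => h (e ▸ P.π_zero)
  refine P.o.un_O.2 ⟨h0, le_antisymm (not_lt.1 fun h1 => h (P.π_F1 (Or.inr h1))) ?_⟩
  exact hg.resolve_left h0

/-- The curve `G` on the divisor `e` is a component of the intersection with the divisor `i`. -/
structure Fl (f : Po 3) (M : Mod 3) (P : Pl (KK 3) L) (G : Pl L k) (e i : M.J) : Prop where
  ok : M.OK f
  bas : Bas f M
  der : Der M
  cv : Cv M
  unr : SUnr
  po : P.o = M.v e
  nrm : ∃ π, G.o.v π = 1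
  isc : M.IsCv e i (cmp P G.o.O)

/-- The labels of a chart. -/
structure Lb {M : Mod 3} (b : M.ι) (e i : M.J) (l0 l1 l2 : Fin 3) : Prop where
  h0 : M.S.lab b e = some l0
  h1 : M.S.lab b i = some l1
  n01 : l0 ≠ l1
  n02 : l0 ≠ l2
  n12 : l1 ≠ l2
  all : ∀ l, l = l0 ∨ l = l1 ∨ l = l2

/-- The coordinates of a chart. -/
def coB {M : Mod 3} (h : Der M) (b : M.ι) : Co (KK 3) 3 where
  z := M.S.z b
  D := M.S.D b
  ne l e := by simpa [M.S.D_z] using congrArg (M.S.D b l) e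
  dual := M.S.D_z b
  span v hv := Derivation.ext fun g => by simp [h.chain v b g, hv]

/-- The ordered and shifted coordinates. -/
def co3 {M : Mod 3} (h : Der M) {b : M.ι} {e i : M.J} {l0 l1 l2 : Fin 3} (hl : Lb b e i l0 l1 l2)
    (c : ℂ) : Co (KK 3) 3 where
  z := ![M.S.z b l0, M.S.z b l1, M.S.z b l2 - algebraMap ℂ _ c]
  D := ![M.S.D b l0, M.S.D b l1, M.S.D b l2]
  ne l := by
    fin_cases l
    · exact (coB h b).ne l0
    · exact (coB h b).ne l1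
    · exact ((coB h b).shift fun _ => c).ne l2
  dual l l' := by
    have := hl.n01; have := hl.n02; have := hl.n12
    have := hl.n01.symm; have := hl.n02.symm; have := hl.n12.symm
    fin_cases l <;> fin_cases l' <;> simp [M.S.D_z, *]
  span v hv := (coB h b).span v fun l => by
    rcases hl.all l with rfl | rfl | rfl
    · exact hv 0
    · exact hv 1
    · simpa [coB] using hv 2

variable {f : Po 3} {M : Mod 3} {P : Pl (KK 3) L} {G : Pl L k} {e i : M.J}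

namespace Fl

variable (h : Fl f M P G e i) {b : M.ι} (hb : M.In b (cmp P G.o.O))
include h

theorem le : cmp P G.o.O ≤ (M.v e).O := h.isc.2.2.1

theorem thru_e : M.Thru (cmp P G.o.O) e := h.bas.thru_le _ _ h.isc.2.1 h.le

include hb

theorem in_e : M.In b (M.v e).O := fun g hg => h.le (hb g hg)

theorem labels : ∃ l0 l1 l2, Lb b e i l0 l1 l2 := by
  obtain ⟨l0, h0⟩ := (h.bas.in_v b _ e hb h.thru_e).2.2.1
  obtain ⟨l1, h1⟩ := (h.bas.in_v b _ i hb h.isc.2.2.2.1).2.2.1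
  have n : l0 ≠ l1 := fun n => h.isc.1 (M.S.lab_inj b _ _ _ h1 (n ▸ h0))
  obtain ⟨l2, a1, a2, a3⟩ := third n
  exact ⟨l0, l1, l2, h0, h1, n, a1, a2, a3⟩

theorem nun_e : ¬Un (cmp P G.o.O) (M.η b e) := (h.bas.thru_iff b _ e hb).1 h.thru_e

theorem nun_i : ¬Un (cmp P G.o.O) (M.η b i) := (h.bas.thru_iff b _ i hb).1 h.isc.2.2.2.1

theorem v_η (j : M.J) : P.o.v (M.η b j) = if e = j then 1 else 0 := by
  have := h.bas.v_mon b e ((1 : ℤ) • M.e j) (h.in_e hb)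
  rwa [h.bas.mon_e, zpow_one, one_smul, M.e_apply, ← h.po] at this

theorem lift {y : KK 3} (hy : y ∈ cmp P G.o.O) :
    ∃ g, Lc (M.S.A b) (cmp P G.o.O) g ∧ P.π y = P.π g := by
  by_cases h1 : P.π y = 0
  · exact ⟨0, Lc.of_mem (zero_mem _), by rw [h1, P.π_zero]⟩
  obtain ⟨h0, hv⟩ := P.o.un_O.1 (un_of_pi hy.1 h1)
  obtain ⟨n, s, hs, s', hs', us, us', e1⟩ := h.cv.dvr e i _ b h.isc hb y h0 (h.po ▸ hv)
  have h2 : s' * M.η b i ^ n ∈ cmp P G.o.O := by
    have := sub_mem (mul_mem us.2.1 hy) (h.bas.small _ e h.le _ e1).1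
    rwa [sub_sub_cancel] at this
  rw [mul_comm, us'.mem_iff, zpow_mem_iff (M.η_ne b i) (hb _ (h.bas.η_mem b i)) (h.nun_i hb)] at h2
  obtain ⟨n, rfl⟩ := Int.eq_ofNat_of_zero_le h2
  have h3 : Lc (M.S.A b) (cmp P G.o.O) (s' * M.η b i ^ (n : ℤ) / s) := ⟨s, hs, us, by
    rw [mul_div_cancel₀ _ us.1, zpow_natCast]
    exact mul_mem hs' (pow_mem (h.bas.η_mem b i) n)⟩
  refine ⟨_, h3, Pl.π_congr (h3.mem' hb).1 ?_⟩
  have h4 := F_div e1 s
  rw [← h.po, (P.o.un_O.1 (us.mono (cmp_le _ _))).2, sub_zero, sub_div,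
    mul_div_cancel_left₀ _ us.1] at h4
  exact h4

theorem v_i : G.o.v (P.π (M.η b i)) = 1 := by
  obtain ⟨t, ht⟩ := h.nrm
  obtain ⟨g, hg, rfl⟩ := P.surj t
  have t0 : P.π g ≠ 0 := fun e => by simp [e, G.o.zero] at ht
  obtain ⟨h0, hv⟩ := P.o.un_O.1 (un_of_pi hg t0)
  obtain ⟨n, hn, -⟩ := h.cv.un e i _ b h.isc hb g h0 (h.po ▸ hv)
  have v0 : P.o.v (M.η b i) = 0 := by rw [h.v_η hb, if_neg h.isc.1.symm]
  have η0 := pi_ne (M.η_ne b i) v0
  have h1 := (G.o.un_O.1 (un_cmp.1 hn).2).2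
  rw [pi_div hg (zpow_ne_zero _ (M.η_ne b i)) (by rw [P.o.zpow, v0, mul_zero]),
    pi_zpow (M.η_ne b i) v0, G.o.div t0 (zpow_ne_zero _ η0), G.o.zpow, ht] at h1
  exact Int.eq_one_of_mul_eq_one_left ((hb _ (h.bas.η_mem b i)).2.resolve_left η0)
    (show n * _ = 1 by omega)

variable {l0 l1 l2 : Fin 3} (hl : Lb b e i l0 l1 l2)
include hl

theorem un_y (c : ℂ) : Un (cmp P G.o.O) (M.S.z b l2 - algebraMap ℂ _ c) := by
  by_contra hn
  have hy : M.S.z b l2 - algebraMap ℂ _ c ∈ M.S.A b :=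
    sub_mem (M.S.z_mem b l2) ((M.S.A b).algebraMap_mem c)
  obtain ⟨s, hs, g, hg, g', hg', us, e1⟩ := h.isc.2.2.2.2 b hb _ hy hn
  have e2 := congrArg (M.S.D b l2) e1
  have d0 : M.S.D b l2 (M.η b e) = 0 := by
    rw [Mod.η, M.S.η_some b e l0 hl.h0, M.S.D_z, if_neg hl.n02.symm]
  have d1 : M.S.D b l2 (M.η b i) = 0 := by
    rw [Mod.η, M.S.η_some b i l1 hl.h1, M.S.D_z, if_neg hl.n12.symm]
  simp only [map_add, Derivation.leibniz, map_sub, d0, d1, M.S.D_z, if_true,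
    Derivation.map_algebraMap, smul_eq_mul] at e2
  have e3 : s = M.S.D b l2 g * M.η b e + M.S.D b l2 g' * M.η b i +
      -M.S.D b l2 s * (M.S.z b l2 - algebraMap ℂ _ c) := by linear_combination e2
  have m1 := hb _ (M.S.D_mem b l2 g hg)
  have m2 := hb _ (M.S.D_mem b l2 g' hg')
  have m3 := neg_mem (hb _ (M.S.D_mem b l2 s hs))
  have n1 := hb _ (h.bas.η_mem b e)
  have n2 := hb _ (h.bas.η_mem b i)
  refine not_un_add (add_mem (mul_mem m1 n1) (mul_mem m2 n2)) (mul_mem m3 (hb _ hy))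
    (not_un_add (mul_mem m1 n1) (mul_mem m2 n2) (not_un_mul m1 n1 (h.nun_e hb))
      (not_un_mul m2 n2 (h.nun_i hb))) (not_un_mul m3 (hb _ hy) hn) (e3 ▸ us)

theorem at3 (c : ℂ) : (co3 h.der hl c).At P.o 0 where
  cst := cst_F _
  v j := by
    fin_cases j
    · have := h.v_η hb e
      rw [Mod.η, M.S.η_some b e l0 hl.h0] at this
      simpa [co3] using this
    · have := h.v_η hb i
      rw [Mod.η, M.S.η_some b i l1 hl.h1, if_neg h.isc.1.symm] at this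
      simpa [co3] using this
    · simpa [co3] using (P.o.un_O.1 ((h.un_y hb hl c).mono (cmp_le _ _))).2
  D j g hg := by
    have key : ∀ l, M.S.D b l g ∈ P.o.F 0 := fun l => by
      rw [h.po] at hg ⊢
      exact (h.der.lc b _ l g (h.bas.frac b e (h.in_e hb) g hg)).mem' (h.in_e hb)
    fin_cases j <;> exact key _

theorem exists_co2 (c : ℂ) : ∃ C : Co L 2, P.RsC (co3 h.der hl c) 0 C ∧ C.At G.o 0 := by
  have hA : ∀ g ∈ M.S.A b, g ∈ P.o.F 0 := fun g hg => (hb g hg).1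
  obtain ⟨C, hC⟩ := Pl.exists_RsC (h.at3 hb hl c) fun w hw => Derivation.ext fun y =>
    der_zero_et (h.ok.et b) (piA P _ hA) (fun y => by
      obtain ⟨g, hg, rfl⟩ := P.surj y
      obtain ⟨s, hs, us, hsg⟩ := h.bas.frac b e (h.in_e hb) g (h.po ▸ hg)
      rw [← h.po, P.o.un_O] at us
      exact ⟨⟨_, hsg⟩, ⟨s, hs⟩, pi_ne us.1 us.2, (P.mul _ (hA s hs) _ hg).symm⟩) w (fun l => by
      show w (P.π (M.S.z b l)) = 0
      rcases hl.all l with rfl | rfl | rfl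
      · rw [P.π_F1 (g := M.S.z b l) (Or.inr (h.at3 hb hl c).vz.ge), map_zero]
      · exact hw 0
      · have := hw 1
        change w (P.π (M.S.z b l - algebraMap ℂ _ c)) = 0 at this
        rw [pi_sub (hA _ (M.S.z_mem b l)) (cst_F _ c), pi_cst] at this
        simpa using this) y
  refine ⟨C, hC, cst_F _, fun j => ?_, fun j y hy => ?_⟩
  · rw [hC j]
    fin_cases j
    · have := h.v_i hb
      rw [Mod.η, M.S.η_some b i l1 hl.h1] at this
      exact this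
    · exact (G.o.un_O.1 (un_cmp.1 (h.un_y hb hl c)).2).2
  · obtain ⟨g, hg, rfl⟩ := P.surj y
    obtain ⟨g', hg', e1⟩ := h.lift hb ⟨hg, hy⟩
    rw [e1, ← (hC.D (h.at3 hb hl c) j).2 _ (hg'.mem' hb).1]
    fin_cases j <;> exact ((h.der.lc b _ _ g' hg').mem' hb).2

omit hl in
/-- The residue map to the function field of the curve. -/
def phi : M.S.A b →ₐ[ℂ] k where
  toFun g := G.π (P.π g)
  map_one' := by rw [OneMemClass.coe_one, P.π_one, G.π_one]
  map_mul' a c := by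
    rw [MulMemClass.coe_mul, P.mul _ (hb a a.2).1 _ (hb c c.2).1, G.mul _ (hb a a.2).2 _ (hb c c.2).2]
  map_zero' := by rw [ZeroMemClass.coe_zero, P.π_zero, G.π_zero]
  map_add' a c := by
    rw [AddMemClass.coe_add, P.add _ (hb a a.2).1 _ (hb c c.2).1, G.add _ (hb a a.2).2 _ (hb c c.2).2]
  commutes' c := by
    show G.π (P.π (algebraMap ℂ _ c)) = _
    rw [P.π_cst, G.π_cst]

omit hl in
theorem phi_frac (y : k) : ∃ a s, phi hb s ≠ 0 ∧ phi hb s * y = phi hb a := by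
  obtain ⟨y1, hy1, rfl⟩ := G.surj y
  obtain ⟨g, hg, rfl⟩ := P.surj y1
  obtain ⟨g', hg', e1⟩ := h.lift hb ⟨hg, hy1⟩
  have hm := hg'.mem' hb
  obtain ⟨s, hs, us, hsg⟩ := hg'
  have u2 := G.o.un_O.1 (un_cmp.1 us).2
  refine ⟨⟨_, hsg⟩, ⟨s, hs⟩, pi_ne u2.1 u2.2, ?_⟩
  show G.π (P.π s) * _ = G.π (P.π (s * g'))
  rw [e1, P.mul _ us.2.1.1 _ hm.1, G.mul _ us.2.1.2 _ hm.2]

theorem phi_z0 : phi hb ⟨_, M.S.z_mem b l0⟩ = 0 := by
  show G.π (P.π (M.S.z b l0)) = 0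
  rw [P.π_F1 (g := M.S.z b l0) (Or.inr (h.at3 hb hl 0).vz.ge), G.π_zero]

theorem phi_z1 : phi hb ⟨_, M.S.z_mem b l1⟩ = 0 := by
  have := h.v_i hb
  rw [Mod.η, M.S.η_some b i l1 hl.h1] at this
  exact G.π_F1 (Or.inr this.ge)

theorem isFF : IsFF ℂ k := by
  obtain ⟨C, hC, hA⟩ := h.exists_co2 hb hl 0
  obtain ⟨D, hD⟩ := exists_Rs G (hA.D_LV (j := 1) (by decide))
  have e1 : C.z 1 = P.π (M.S.z b l2) := by simpa [co3] using hC 1
  have hD1 : D (G.π (C.z 1)) = 1 := by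
    rw [← hD.2 _ (M3J.z1_F hA), C.dual, if_pos rfl, pi_one]
  refine ⟨G.π (C.z 1), H14.transc ?_, fin_et (h.ok.et b) (phi hb) (h.phi_frac hb) _ fun l => ?_⟩
  · rintro ⟨c, hc⟩
    rw [← hc, Derivation.map_algebraMap] at hD1
    exact zero_ne_one hD1
  · rcases hl.all l with rfl | rfl | rfl
    · rw [h.phi_z0 hb hl]; exact zero_mem _
    · rw [h.phi_z1 hb hl]; exact zero_mem _
    · rw [e1]; exact IntermediateField.mem_adjoin_simple_self ℂ _

end Fl

/-- The valuation ring of a flag. -/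
abbrev Vx (P : Pl (KK 3) L) (G : Pl L k) (x : Place ℂ k) : Vl 3 :=
  cmp P (cmp G x.val.valuationSubring)

theorem Vx_le (x : Place ℂ k) : Vx P G x ≤ cmp P G.o.O := cmp_mono P (cmp_le G _)

theorem val_Vx {x : Place ℂ k} {g : KK 3} (hg : g ∈ Vx P G x) : x.val (G.π (P.π g)) ≤ 1 := hg.2.2

theorem un_Vx {x : Place ℂ k} {g : KK 3} (hg : g ∈ cmp P G.o.O) :
    Un (Vx P G x) g ↔ x.val (G.π (P.π g)) = 1 := by
  refine ⟨fun h => ?_, fun h => ?_⟩
  · have h1 := (un_cmp.1 (un_cmp.1 h).2).2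
    have h2 : x.val (G.π (P.π g))⁻¹ ≤ 1 := h1.2.2
    rw [map_inv₀, inv_le_one₀ (zero_lt_iff.2 (x.val_ne h1.1))] at h2
    exact le_antisymm h1.2.1 h2
  · have h0 : G.π (P.π g) ≠ 0 := fun e => by simp [e] at h
    have h1 := un_of_pi hg.2 h0
    refine un_cmp.2 ⟨un_of_pi hg.1 h1.1, un_cmp.2 ⟨h1, h0, h.le, ?_⟩⟩
    show x.val _ ≤ 1
    rw [map_inv₀, h, inv_one]

theorem Fl.ord_y (h : Fl f M P G e i) {x : Place ℂ k} {b : M.ι} (hx : M.In b (Vx P G x))
    {l0 l1 l2 : Fin 3} (hl : Lb b e i l0 l1 l2) : ∃ c : ℂ,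
      x.ord (G.π (P.π (M.S.z b l2 - algebraMap ℂ _ c))) = 1 := by
  have hb : M.In b (cmp P G.o.O) := fun g hg => Vx_le x (hx g hg)
  obtain ⟨c, hc⟩ := H51.res (h.isFF hb hl) x _ (val_Vx (hx _ (M.S.z_mem b l2)))
  obtain ⟨φ, hφ⟩ : ∃ φ, φ = Fl.phi hb := ⟨_, rfl⟩
  have hφa : ∀ a : M.S.A b, φ a = G.π (P.π a) := fun a => hφ ▸ rfl
  let z : Fin 3 → M.S.A b := fun l => ⟨_, M.S.z_mem b l⟩
  obtain ⟨y, hy⟩ : ∃ y, y = φ (z l2 - algebraMap ℂ _ c) := ⟨_, rfl⟩
  have hy1 : x.val y < 1 := by rwa [hy, map_sub, AlgHom.commutes, hφa]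
  have hy0 : y ≠ 0 := by
    have u2 := G.o.un_O.1 (un_cmp.1 (h.un_y hb hl c)).2
    rw [hy, hφa]
    exact pi_ne u2.1 u2.2
  have hle : ∀ a, x.val (φ a) ≤ 1 := fun a => hφa a ▸ val_Vx (hx a a.2)
  have hpos : 0 < x.ord y := (x.val_lt_one (x.val_ne hy0)).1 hy1
  have step : ∀ a, x.val (φ a) ≠ 1 → ∃ s a', x.val (φ s) = 1 ∧ φ s * φ a = y * φ a' := by
    intro a ha
    obtain ⟨s, hs, us, r, g, p, hg, hp, e1⟩ := h.unr (KK 3) 3 (M.S.A b) z (Vx P G x) (h.ok.et b) hx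
      a a.2 fun u => ha (hφa a ▸ (un_Vx (hb a a.2)).1 u)
    have co : ∀ q : Po 3, ((MvPolynomial.aeval z q : M.S.A b) : KK 3) =
        MvPolynomial.aeval (fun l => (z l : KK 3)) q := fun q =>
      MvPolynomial.comp_aeval_apply z (M.S.A b).val q
    have one : ∀ j, ∃ q, φ (MvPolynomial.aeval z (p j)) = y * φ q := fun j => by
      obtain ⟨κ, q, e2⟩ := poly_split z (Pi.single l2 c) (p j)
      have e3 : φ (MvPolynomial.aeval z (p j)) =
          algebraMap ℂ k κ + y * φ (MvPolynomial.aeval z (q l2)) := by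
        rw [e2, map_add, AlgHom.commutes, map_sum, Finset.sum_eq_single l2 _ (by simp),
          Pi.single_eq_same, map_mul, ← hy]
        intro l _ hne
        rw [Pi.single_eq_of_ne hne, map_zero, sub_zero, map_mul]
        rcases hl.all l with rfl | rfl | rfl
        · rw [hφ, h.phi_z0 hb hl, zero_mul]
        · rw [hφ, h.phi_z1 hb hl, zero_mul]
        · exact absurd rfl hne
      have h1 : x.val (φ (MvPolynomial.aeval z (p j))) < 1 := lt_of_le_of_ne (hle _) fun u =>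
        hp j (co _ ▸ (un_Vx (hb _ (MvPolynomial.aeval z (p j)).2)).2 (hφa _ ▸ u))
      have h2 : x.val (y * φ (MvPolynomial.aeval z (q l2))) < 1 := by
        rw [map_mul]
        exact (mul_le_of_le_one_right' (hle _)).trans_lt hy1
      have h3 := x.val.map_sub_lt h1 h2
      rw [e3, add_sub_cancel_right] at h3
      have h4 : κ = 0 := by
        by_contra hκ
        rw [x.triv κ hκ] at h3
        exact lt_irrefl _ h3
      exact ⟨MvPolynomial.aeval z (q l2), by rw [e3, h4, map_zero, zero_add]⟩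
    choose q hq using one
    refine ⟨⟨s, hs⟩, ∑ j, ⟨g j, hg j⟩ * q j, hφa _ ▸ (un_Vx (hb s hs)).1 us, ?_⟩
    have e4 : (⟨s, hs⟩ * a : M.S.A b) = ∑ j, ⟨g j, hg j⟩ * MvPolynomial.aeval z (p j) :=
      Subtype.ext (by
        rw [AddSubmonoidClass.coe_finsetSum]
        exact e1.trans (Finset.sum_congr rfl fun j _ => by rw [MulMemClass.coe_mul, co]))
    rw [← map_mul, e4, map_sum, map_sum, Finset.mul_sum]
    exact Finset.sum_congr rfl fun j _ => by rw [map_mul, map_mul, hq]; ring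
  have dvd : ∀ (n : ℕ) a, φ a ≠ 0 → x.ord (φ a) < n → x.ord y ∣ x.ord (φ a) := by
    intro n
    induction n with
    | zero =>
      intro a ha hn
      have := (x.val_le_one (x.val_ne ha)).1 (hle a)
      omega
    | succ n ih =>
      intro a ha hn
      by_cases h1 : x.val (φ a) = 1
      · rw [x.ord_of_val_one h1]; exact dvd_zero _
      obtain ⟨s, a', hs, e1⟩ := step a h1
      have s0 : φ s ≠ 0 := fun e => by simp [e] at hs
      have a0 : φ a' ≠ 0 := fun e => mul_ne_zero s0 ha (by rw [e1, e, mul_zero])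
      have e2 := congrArg x.ord e1
      rw [x.ord_mul (x.val_ne s0) (x.val_ne ha), x.ord_mul (x.val_ne hy0) (x.val_ne a0),
        x.ord_of_val_one hs, zero_add] at e2
      rw [e2]
      exact dvd_add dvd_rfl (ih a' a0 (by push_cast at hn; omega))
  have dvd' : ∀ a, φ a ≠ 0 → x.ord y ∣ x.ord (φ a) := fun a ha =>
    dvd ((x.ord (φ a)).toNat + 1) a ha (by push_cast; omega)
  obtain ⟨t, ht⟩ := x.exists_unif
  have t0 : t ≠ 0 := fun e => by rw [e, map_zero] at ht; exact exp_ne_zero ht.symm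
  obtain ⟨a, s, hs, e1⟩ := h.phi_frac hb t
  rw [← hφ] at hs e1
  have a0 : φ a ≠ 0 := e1 ▸ mul_ne_zero hs t0
  have e2 := congrArg x.ord e1
  rw [x.ord_mul (x.val_ne hs) (x.val_ne t0), x.ord_eq ht] at e2
  have h1 : x.ord y ∣ 1 := (dvd_add_right (dvd' s hs)).1 (e2 ▸ dvd' a a0)
  refine ⟨c, ?_⟩
  have h2 := Int.eq_one_of_dvd_one hpos.le h1
  rwa [hy, hφa] at h2

end

end Pool.Agent.MP_ee8c61_ag.M3Z
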