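import Pool.Agent.MP_ee8c61_ag.M3Z.Curve
import Pool.Agent.MP_ee8c61_ag.M3E.Spec
import Pool.Agent.MP_ee8c61_ag.M3B1.Et
import Pool.Agent.MP_ee8c61_ag.M3RESID.Jac

/-!
Composite valuation rings, residue fields of etale charts, flags on a model.
-/

namespace Pool.Agent.MP_ee8c61_ag.M3Z

open M3 M3E M3RESID WithZero Pool.Agent.MP_cce4c9_lc Pool.Agent.MP_cce4c9_lc.H87
open scoped IntermediateField

noncomputable section

variable {L k : Type} [Field L] [Algebra ℂ L] [Field k] [Algebra ℂ k]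

/-- The composite of a place and a valuation ring of its residue field. -/
def cmp (P : Pl L k) (V : ValuationSubring k) : ValuationSubring L where
  carrier := {g | g ∈ P.o.F 0 ∧ P.π g ∈ V}
  mul_mem' := fun {a b} ha hb => ⟨F_mul0 ha.1 hb.1, P.mul _ ha.1 _ hb.1 ▸ mul_mem ha.2 hb.2⟩
  one_mem' := ⟨one_F, P.π_one ▸ one_mem V⟩
  add_mem' := fun {a b} ha hb => ⟨add_mem ha.1 hb.1, P.add _ ha.1 _ hb.1 ▸ add_mem ha.2 hb.2⟩
  zero_mem' := ⟨zero_mem _, P.π_zero ▸ zero_mem V⟩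
  neg_mem' := fun {a} ha => ⟨neg_mem ha.1, Pl.π_neg ha.1 ▸ neg_mem ha.2⟩
  mem_or_inv_mem' := fun g => by
    have h1 : ∀ g ∈ P.o.F 1, g ∈ P.o.F 0 ∧ P.π g ∈ V := fun g h =>
      ⟨F10 h, P.π_F1 h ▸ zero_mem V⟩
    by_cases h0 : g = 0
    · exact Or.inl (h1 g (Or.inl h0))
    rcases lt_trichotomy (P.o.v g) 0 with h | h | h
    · exact Or.inr (h1 _ (Or.inr (by rw [P.o.inv]; omega)))
    · rcases V.mem_or_inv_mem (P.π g) with h2 | h2
      · exact Or.inl ⟨Or.inr h.ge, h2⟩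
      · exact Or.inr ⟨Or.inr (by rw [P.o.inv]; omega), pi_inv h0 h ▸ h2⟩
    · exact Or.inl (h1 _ (Or.inr (by omega)))

theorem mem_cmp {P : Pl L k} {V : ValuationSubring k} {g : L} :
    g ∈ cmp P V ↔ g ∈ P.o.F 0 ∧ P.π g ∈ V := Iff.rfl

theorem cmp_le (P : Pl L k) (V : ValuationSubring k) : cmp P V ≤ P.o.O := fun _ h => h.1

theorem cmp_mono (P : Pl L k) {V V' : ValuationSubring k} (h : V ≤ V') : cmp P V ≤ cmp P V' :=
  fun _ hg => ⟨hg.1, h hg.2⟩

theorem un_cmp {P : Pl L k} {V : ValuationSubring k} {g : L} :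
    Un (cmp P V) g ↔ Un P.o.O g ∧ Un V (P.π g) := by
  refine ⟨fun h => ?_, fun h => ?_⟩
  · have h1 := h.mono (cmp_le P V)
    obtain ⟨h0, hv⟩ := P.o.un_O.1 h1
    exact ⟨h1, pi_ne h0 hv, h.2.1.2, pi_inv h0 hv ▸ h.2.2.2⟩
  · obtain ⟨h0, hv⟩ := P.o.un_O.1 h.1
    exact ⟨h0, ⟨h.1.2.1, h.2.2.1⟩, h.1.2.2, (pi_inv h0 hv).symm ▸ h.2.2.2⟩

/-- The residue map on a subalgebra of the valuation ring. -/
def piA (P : Pl L k) (A : Subalgebra ℂ L) (h : ∀ g ∈ A, g ∈ P.o.F 0) : A →ₐ[ℂ] k where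
  toFun g := P.π g
  map_one' := P.π_one
  map_mul' a b := P.mul _ (h a a.2) _ (h b b.2)
  map_zero' := P.π_zero
  map_add' a b := P.add _ (h a a.2) _ (h b b.2)
  commutes' c := P.π_cst c

section Et

variable {A : Type} [CommRing A] [Algebra ℂ A] {n : ℕ} {z : Fin n → A}
  (hz : (MvPolynomial.aeval (R := ℂ) z).toRingHom.Etale) (φ : A →ₐ[ℂ] k)
  (hφ : ∀ y : k, ∃ a s, φ s ≠ 0 ∧ φ s * y = φ a)
include hz hφ

theorem der_zero_et {T : Type} [AddCommGroup T] [Module ℂ T] [Module k T] [IsScalarTower ℂ k T]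
    (D : Derivation ℂ k T) (h : ∀ l, D (φ (z l)) = 0) (y : k) : D y = 0 := by
  let _ : Algebra (MvPolynomial (Fin n) ℂ) A := (MvPolynomial.aeval (R := ℂ) z).toRingHom.toAlgebra
  have : Algebra.Etale (MvPolynomial (Fin n) ℂ) A := hz
  let _ : Algebra A k := φ.toRingHom.toAlgebra
  have : IsScalarTower ℂ A k := IsScalarTower.of_algebraMap_eq fun c => (φ.commutes c).symm
  let _ : Module A T := Module.compHom T φ.toRingHom
  have : IsScalarTower A k T := ⟨fun a b t => mul_smul (φ a) b t⟩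
  have : IsScalarTower ℂ A T := ⟨fun c a t => by
    show φ (c • a) • t = c • φ a • t
    rw [map_smul, smul_assoc]⟩
  let _ : Module (MvPolynomial (Fin n) ℂ) T :=
    Module.compHom T (algebraMap (MvPolynomial (Fin n) ℂ) A)
  have : IsScalarTower (MvPolynomial (Fin n) ℂ) A T := ⟨fun p a t => mul_smul _ a t⟩
  have h1 : ∀ a, D (φ a) = 0 := fun a =>
    M3B1.ET.der_uniq (A := MvPolynomial (Fin n) ℂ) (D.compAlgebraMap A) 0 (fun p => by
      show D (φ (MvPolynomial.aeval z p)) = 0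
      induction p using MvPolynomial.induction_on with
      | C c => simp
      | add p q hp hq => rw [map_add, map_add, map_add, hp, hq, add_zero]
      | mul_X p l hp =>
        rw [map_mul, map_mul, MvPolynomial.aeval_X, Derivation.leibniz, hp, h, smul_zero,
          smul_zero, add_zero]) a
  obtain ⟨a, s, hs, e⟩ := hφ y
  have h2 := h1 a
  rw [← e, Derivation.leibniz, h1, smul_zero, add_zero] at h2
  exact (smul_eq_zero.1 h2).resolve_left hs

theorem fin_et (F : IntermediateField ℂ k) (h : ∀ l, φ (z l) ∈ F) : FiniteDimensional F k := by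
  have hA : Algebra.FiniteType ℂ A := by
    let _ : Algebra (MvPolynomial (Fin n) ℂ) A :=
      (MvPolynomial.aeval (R := ℂ) z).toRingHom.toAlgebra
    have : Algebra.Etale (MvPolynomial (Fin n) ℂ) A := hz
    have : IsScalarTower ℂ (MvPolynomial (Fin n) ℂ) A :=
      IsScalarTower.of_algebraMap_eq fun c => ((MvPolynomial.aeval z).commutes c).symm
    exact Algebra.FiniteType.trans (S := MvPolynomial (Fin n) ℂ) inferInstance inferInstance
  obtain ⟨S, hS⟩ := hA.out
  have hE : Algebra.EssFiniteType ℂ k := IntermediateField.fg_top_iff.1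
    (IntermediateField.fg_def.2 ⟨φ '' S, S.finite_toSet.image _, top_unique fun y _ => by
      have h1 : ∀ a, φ a ∈ IntermediateField.adjoin ℂ (φ '' S) := fun a =>
        IntermediateField.algebra_adjoin_le_adjoin ℂ _ (by
          rw [← AlgHom.map_adjoin, hS]
          exact ⟨a, trivial, rfl⟩)
      obtain ⟨a, s, hs, e⟩ := hφ y
      rw [show y = φ a / φ s by rw [← e, mul_div_cancel_left₀ _ hs]]
      exact div_mem (h1 a) (h1 s)⟩)
  have : Algebra.EssFiniteType F k := Algebra.EssFiniteType.of_comp ℂ F k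
  have : Algebra.FormallyUnramified F k := ⟨⟨fun a b => by
    have h0 : ∀ y, KaehlerDifferential.D F k y = 0 :=
      der_zero_et hz φ hφ ((KaehlerDifferential.D F k).restrictScalars ℂ) fun l =>
        (KaehlerDifferential.D F k).map_algebraMap ⟨_, h l⟩
    have h1 : (⊤ : Submodule k (Ω[k⁄F])) = ⊥ := by
      rw [← KaehlerDifferential.span_range_derivation, Submodule.span_eq_bot]
      rintro _ ⟨y, rfl⟩
      exact h0 y
    have h2 : ∀ a : Ω[k⁄F], a = 0 := fun a => (Submodule.mem_bot _).1 (h1 ▸ Submodule.mem_top)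
    rw [h2 a, h2 b]⟩⟩
  exact Algebra.FormallyUnramified.finite_of_free F k

end Et

theorem third {l0 l1 : Fin 3} (h : l0 ≠ l1) :
    ∃ l2, l0 ≠ l2 ∧ l1 ≠ l2 ∧ ∀ l, l = l0 ∨ l = l1 ∨ l = l2 := by
  revert l0 l1
  decide

theorem poly_split {R : Type} [CommRing R] [Algebra ℂ R] {n : ℕ} (z : Fin n → R) (c : Fin n → ℂ)
    (p : MvPolynomial (Fin n) ℂ) : ∃ (κ : ℂ) (q : Fin n → MvPolynomial (Fin n) ℂ),
      MvPolynomial.aeval z p = algebraMap ℂ R κ +
        ∑ l, (z l - algebraMap ℂ R (c l)) * MvPolynomial.aeval z (q l) := by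
  induction p using MvPolynomial.induction_on with
  | C a => exact ⟨a, 0, by simp⟩
  | add p p' hp hp' =>
    obtain ⟨κ, q, h⟩ := hp
    obtain ⟨κ', q', h'⟩ := hp'
    refine ⟨κ + κ', q + q', ?_⟩
    simp only [map_add, h, h', Pi.add_apply, mul_add, Finset.sum_add_distrib]
    ring
  | mul_X p l hp =>
    obtain ⟨κ, q, h⟩ := hp
    refine ⟨κ * c l, fun j => q j * MvPolynomial.X l + Pi.single (M := fun _ => MvPolynomial (Fin n) ℂ)
      l (MvPolynomial.C κ) j, ?_⟩
    simp only [map_add, map_mul, h, MvPolynomial.aeval_X, mul_add, Finset.sum_add_distrib, add_mul,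
      Finset.sum_mul, mul_assoc]
    rw [Finset.sum_eq_single l (f := fun j => (z j - algebraMap ℂ R (c j)) *
      MvPolynomial.aeval z (Pi.single (M := fun _ => MvPolynomial (Fin n) ℂ) l
        (MvPolynomial.C κ) j)) (fun j _ hj => by simp [hj]) (by simp)]
    simp only [Pi.single_eq_same, MvPolynomial.aeval_C]
    ring

end

end Pool.Agent.MP_ee8c61_ag.M3Z
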